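import Pool.Agent.Helper50.FE.Goals
import Pool.Agent.Helper22.FSU.Approx

/-! FE-HGT: the height of `n! / u` for an S-unit `u`. -/

set_option autoImplicit false

open Finset Pool.Agent.Helper22.FSU

namespace Pool.Agent.Helper8.FE

theorem val_le (n p : ℕ) (hp : p.Prime) : (n.factorial).factorization p ≤ n := by
  rw [Nat.factorization_def _ hp]
  have : Fact p.Prime := ⟨hp⟩
  have h := sub_one_mul_padicValNat_factorial (p := p) n
  have h1 : 1 ≤ p - 1 := by have := hp.two_le; omega
  calc padicValNat p n.factorial = 1 * padicValNat p n.factorial := by ring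
    _ ≤ (p - 1) * padicValNat p n.factorial := Nat.mul_le_mul_right _ h1
    _ = n - (p.digits n).sum := h
    _ ≤ n := Nat.sub_le _ _

theorem gcd_le {S : Finset ℕ} (hS : ∀ p ∈ S, Nat.Prime p) (n g : ℕ) (k : ℕ → ℕ)
    (h1 : g ∣ n.factorial) (h2 : g ∣ su S k) : g ≤ (∏ p ∈ S, p) ^ n := by
  have hn : n.factorial ≠ 0 := Nat.factorial_ne_zero n
  have hg : g ≠ 0 := fun h => hn (by rw [h] at h1; exact Nat.eq_zero_of_zero_dvd h1)
  have hsub : g.primeFactors ⊆ S := by
    intro q hq
    have hqp := Nat.prime_of_mem_primeFactors hq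
    have hqd := (Nat.dvd_of_mem_primeFactors hq).trans h2
    unfold su at hqd
    obtain ⟨p, hp, hpd⟩ := (hqp.prime.dvd_finsetProd_iff _).1 hqd
    have h3 := hqp.dvd_of_dvd_pow hpd
    rw [(Nat.prime_dvd_prime_iff_eq hqp (hS p hp)).1 h3]
    exact hp
  have h4 : g = ∏ p ∈ g.primeFactors, p ^ g.factorization p :=
    (Nat.prod_factorization_pow_eq_self hg).symm
  rw [h4, ← Finset.prod_pow]
  calc ∏ p ∈ g.primeFactors, p ^ g.factorization p
      ≤ ∏ p ∈ g.primeFactors, p ^ n := by
        refine Finset.prod_le_prod' fun p hp => ?_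
        have hpp := Nat.prime_of_mem_primeFactors hp
        refine Nat.pow_le_pow_right hpp.pos ?_
        exact (((Nat.factorization_le_iff_dvd hg hn).2 h1) p).trans (val_le n p hpp)
    _ ≤ ∏ p ∈ S, p ^ n := by
        refine Finset.prod_le_prod_of_subset_of_one_le' hsub fun p hp _ => ?_
        exact Nat.one_le_pow _ _ (hS p hp).pos

theorem goalHGT : Pool.Agent.Helper50.FE.HGT := by
  intro S hS
  have hPpos : 0 < ∏ p ∈ S, p := Finset.prod_pos fun p hp => (hS p hp).pos
  set P : ℕ := ∏ p ∈ S, p with hP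
  refine ⟨⌈Real.exp (2 * (1 + Real.log P))⌉₊ + 1, fun n hn k => ?_⟩
  have hn1 : 1 ≤ n := by omega
  have hnpos : (0 : ℝ) < n := by exact_mod_cast hn1
  have hbig : Real.exp (2 * (1 + Real.log P)) ≤ n := by
    refine (Nat.le_ceil _).trans ?_
    exact_mod_cast (Nat.le_succ _).trans hn
  have hlog : 2 * (1 + Real.log P) ≤ Real.log n := by
    rw [Real.le_log_iff_exp_le hnpos]
    exact hbig
  set u : ℕ := su S k with hu
  have hupos : 0 < u := su_pos hS k
  set q : ℚ := ((n.factorial : ℕ) : ℚ) / (u : ℚ) with hq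
  have huq : (u : ℚ) ≠ 0 := by exact_mod_cast hupos.ne'
  have hdq : (q.den : ℚ) ≠ 0 := by exact_mod_cast q.den_pos.ne'
  have e1 : (q.num : ℚ) * (u : ℚ) = ((n.factorial : ℕ) : ℚ) * (q.den : ℚ) := by
    have h := Rat.num_div_den q
    have h' : (q.num : ℚ) / (q.den : ℚ) = ((n.factorial : ℕ) : ℚ) / (u : ℚ) := by rw [h]
    rw [div_eq_div_iff hdq huq] at h'
    exact h'
  have e2 : q.num * (u : ℤ) = ((n.factorial : ℕ) : ℤ) * (q.den : ℤ) := by exact_mod_cast e1
  have e3 : q.num.natAbs * u = n.factorial * q.den := by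
    have := congrArg Int.natAbs e2
    rw [Int.natAbs_mul, Int.natAbs_mul, Int.natAbs_natCast, Int.natAbs_natCast,
      Int.natAbs_natCast] at this
    exact this
  have hco : Nat.Coprime q.den q.num.natAbs := q.reduced.symm
  have hdvd : q.den ∣ u := by
    have h : q.den ∣ q.num.natAbs * u := ⟨n.factorial, by rw [e3]; ring⟩
    exact hco.dvd_of_dvd_mul_left h
  obtain ⟨g, hg⟩ := hdvd
  have e4 : q.num.natAbs * g = n.factorial := by
    have h : q.den * (q.num.natAbs * g) = q.den * n.factorial := by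
      calc q.den * (q.num.natAbs * g) = q.num.natAbs * (q.den * g) := by ring
        _ = n.factorial * q.den := by rw [← hg, e3]
        _ = q.den * n.factorial := by ring
    exact Nat.eq_of_mul_eq_mul_left q.den_pos h
  have hgle : g ≤ P ^ n := gcd_le hS n g k ⟨q.num.natAbs, by rw [← e4]; ring⟩
    ⟨q.den, by rw [← hu, hg]; ring⟩
  have hNpos : 0 < q.num.natAbs := by
    rcases Nat.eq_zero_or_pos q.num.natAbs with h | h
    · rw [h, zero_mul] at e4
      exact absurd e4.symm (Nat.factorial_ne_zero n)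
    · exact h
  have hfle : (n.factorial : ℝ) ≤ (q.num.natAbs : ℝ) * (P : ℝ) ^ n := by
    have h : n.factorial ≤ q.num.natAbs * P ^ n := by
      rw [← e4]
      exact Nat.mul_le_mul_left _ hgle
    exact_mod_cast h
  have hNr : (0 : ℝ) < (q.num.natAbs : ℝ) := by exact_mod_cast hNpos
  have hPr : (0 : ℝ) < (P : ℝ) := by exact_mod_cast hPpos
  have hlf : Real.log (n.factorial : ℝ) ≤ Real.log (q.num.natAbs : ℝ) + n * Real.log P := by
    have h := Real.log_le_log (by exact_mod_cast n.factorial_pos) hfle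
    rw [Real.log_mul hNr.ne' (by positivity), Real.log_pow] at h
    exact h
  have hfl : (n : ℝ) * Real.log n - n ≤ Real.log (n.factorial : ℝ) := by
    rw [Real.le_log_iff_exp_le (by exact_mod_cast n.factorial_pos)]
    exact fact_lower n hn1
  rw [Rat.logHeight₁_eq_log_max]
  have hmax : Real.log (q.num.natAbs : ℝ) ≤ Real.log ((max q.num.natAbs q.den : ℕ) : ℝ) := by
    refine Real.log_le_log hNr ?_
    exact_mod_cast le_max_left _ _
  refine le_trans ?_ hmax
  have h5 : (n : ℝ) * (2 * (1 + Real.log P)) ≤ n * Real.log n :=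
    mul_le_mul_of_nonneg_left hlog hnpos.le
  nlinarith [h5, hfl, hlf]

end Pool.Agent.Helper8.FE
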